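import Pool.Agent.H73.GWT.Stmts

/-!
Project GWT (MP_213ba5_lc), row ENC: abstract counting of masks.
-/

set_option autoImplicit false

open Classical

namespace GWT

theorem ENC (ι Γ Μ : Type*) [Fintype ι] : ENCStmt ι Γ Μ := by
  intro mk ms wt om ok lam hwt hom hlam hok hun hstep hsum n
  induction n with
  | zero =>
    intro 𝓓 h𝓓
    have hsub : 𝓓 ⊆ {mk []} := by
      intro D hD
      obtain ⟨l, hl, rfl⟩ := h𝓓 D hD
      rw [List.length_eq_zero_iff.1 hl]
      exact Finset.mem_singleton_self _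
    calc ∑ D ∈ 𝓓, wt D ≤ ∑ D ∈ ({mk []} : Finset Γ), wt D :=
          Finset.sum_le_sum_of_subset_of_nonneg hsub fun D _ _ => hwt D
      _ = lam ^ 0 * wt (mk []) := by rw [Finset.sum_singleton, pow_zero, one_mul]
  | succ n ih =>
    intro 𝓓 h𝓓
    have hch : ∀ D ∈ 𝓓, ∃ (x : ι) (l : List ι), l.length = n ∧ mk (x :: l) = D := by
      intro D hD
      obtain ⟨l, hl, hm⟩ := h𝓓 D hD
      cases l with
      | nil => simp at hl
      | cons x l => exact ⟨x, l, by simpa using hl, hm⟩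
    choose x l hl hx using hch
    let φ : {D // D ∈ 𝓓} → Γ × Μ := fun D => (mk (l D.1 D.2), ms (x D.1 D.2) (l D.1 D.2))
    have hφ : Function.Injective φ := by
      intro D D' h
      have h1 : mk (l D.1 D.2) = mk (l D'.1 D'.2) := congrArg Prod.fst h
      have h2 : ms (x D.1 D.2) (l D.1 D.2) = ms (x D'.1 D'.2) (l D'.1 D'.2) := congrArg Prod.snd h
      have h3 := hun _ _ _ _ h1 h2
      rw [hx, hx] at h3
      exact Subtype.ext h3
    have h0 : ∑ D ∈ 𝓓, wt D = ∑ q ∈ 𝓓.attach.image φ, wt q.1 * om q.2 := by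
      rw [Finset.sum_image fun a _ b _ h => hφ h, ← Finset.sum_attach]
      apply Finset.sum_congr rfl
      intro D _
      change wt D.1 = wt (mk (l D.1 D.2)) * om (ms (x D.1 D.2) (l D.1 D.2))
      rw [← hstep, hx]
    have hsub : 𝓓.attach.image φ ⊆
        ((𝓓.attach.image φ).image Prod.fst) ×ˢ ((𝓓.attach.image φ).image Prod.snd) := by
      intro q hq
      exact Finset.mem_product.2 ⟨Finset.mem_image_of_mem _ hq, Finset.mem_image_of_mem _ hq⟩
    have h1 : ∑ D ∈ (𝓓.attach.image φ).image Prod.fst, wt D ≤ lam ^ n * wt (mk []) := by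
      apply ih
      intro D hD
      obtain ⟨q, hq, rfl⟩ := Finset.mem_image.1 hD
      obtain ⟨D', -, rfl⟩ := Finset.mem_image.1 hq
      exact ⟨l D'.1 D'.2, hl _ _, rfl⟩
    have h2 : ∑ μ ∈ (𝓓.attach.image φ).image Prod.snd, om μ ≤ lam := by
      apply hsum
      intro μ hμ
      obtain ⟨q, hq, rfl⟩ := Finset.mem_image.1 hμ
      obtain ⟨D', -, rfl⟩ := Finset.mem_image.1 hq
      exact hok _ _
    calc ∑ D ∈ 𝓓, wt D = ∑ q ∈ 𝓓.attach.image φ, wt q.1 * om q.2 := h0
      _ ≤ ∑ q ∈ ((𝓓.attach.image φ).image Prod.fst) ×ˢ ((𝓓.attach.image φ).image Prod.snd),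
            wt q.1 * om q.2 :=
          Finset.sum_le_sum_of_subset_of_nonneg hsub fun q _ _ => mul_nonneg (hwt _) (hom _)
      _ = (∑ D ∈ (𝓓.attach.image φ).image Prod.fst, wt D) *
            ∑ μ ∈ (𝓓.attach.image φ).image Prod.snd, om μ := by
          rw [Finset.sum_product, Finset.sum_mul_sum]
      _ ≤ (lam ^ n * wt (mk [])) * lam := by
          apply mul_le_mul h1 h2 (Finset.sum_nonneg fun μ _ => hom μ)
          exact mul_nonneg (pow_nonneg hlam n) (hwt _)
      _ = lam ^ (n + 1) * wt (mk []) := by rw [pow_succ]; ring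

end GWT
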