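import Pool.Agent.H73.GWT.Stmts

/-!
Project GWT (MP_213ba5_lc), row MWT: total weight of the messages.
-/

set_option autoImplicit false

open Classical

namespace GWT

namespace MWTAux

theorem lists {α : Type*} [Fintype α] (y : ℝ) (hy : 0 ≤ y) (S : Finset (List α)) (n : ℕ)
    (hS : ∀ l ∈ S, l.length ≤ n) :
    ∑ l ∈ S, y ^ l.length ≤ ∑ r ∈ Finset.range (n + 1), ((Fintype.card α : ℝ) * y) ^ r := by
  have h1 : ∑ l ∈ S, y ^ l.length =
      ∑ r ∈ Finset.range (n + 1), ∑ l ∈ S.filter (fun l => l.length = r), y ^ l.length := by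
    rw [Finset.sum_fiberwise_of_maps_to]
    intro l hl
    rw [Finset.mem_range]
    have := hS l hl
    omega
  rw [h1]
  apply Finset.sum_le_sum
  intro r _
  have h2 : ∑ l ∈ S.filter (fun l => l.length = r), y ^ l.length =
      ((S.filter (fun l => l.length = r)).card : ℝ) * y ^ r := by
    rw [Finset.sum_congr rfl (g := fun _ => y ^ r), Finset.sum_const, nsmul_eq_mul]
    intro l hl
    rw [(Finset.mem_filter.1 hl).2]
  have h3 : (S.filter (fun l => l.length = r)).card ≤ Fintype.card α ^ r := by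
    have hsub : S.filter (fun l => l.length = r) ⊆
        (Finset.univ : Finset (List.Vector α r)).image (fun v => v.toList) := by
      intro l hl
      exact Finset.mem_image.2 ⟨⟨l, (Finset.mem_filter.1 hl).2⟩, Finset.mem_univ _, rfl⟩
    calc (S.filter (fun l => l.length = r)).card
        ≤ ((Finset.univ : Finset (List.Vector α r)).image (fun v => v.toList)).card :=
          Finset.card_le_card hsub
      _ ≤ (Finset.univ : Finset (List.Vector α r)).card := Finset.card_image_le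
      _ = _ := by rw [Finset.card_univ, card_vector]
  rw [h2, mul_pow]
  have h4 : ((S.filter (fun l => l.length = r)).card : ℝ) ≤ (Fintype.card α : ℝ) ^ r := by
    exact_mod_cast h3
  exact mul_le_mul_of_nonneg_right h4 (pow_nonneg hy r)

theorem geom4 (n : ℕ) (z : ℝ) (h0 : 0 ≤ z) (h : z ≤ 1 / 4) :
    ∑ r ∈ Finset.range n, z ^ r ≤ 4 / 3 := by
  have h1 : ∑ r ∈ Finset.range n, z ^ r ≤ ∑ r ∈ Finset.range n, (1 / 4 : ℝ) ^ r :=
    Finset.sum_le_sum fun r _ => pow_le_pow_left₀ h0 h r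
  refine h1.trans ?_
  rw [geom_sum_eq (by norm_num)]
  have h2 : (0 : ℝ) < (1 / 4) ^ n := by positivity
  have h3 : ((1 / 4 : ℝ) ^ n - 1) / (1 / 4 - 1) = (1 - (1 / 4) ^ n) * (4 / 3) := by
    field_simp
    ring
  rw [h3]
  linarith

end MWTAux

theorem MWT {ι G V : Type*} [Fintype ι] [Group G] [MulAction G V] (C : Code ι G V) :
    MWTStmt C := by
  intro 𝓜 hV
  set K := 6 * C.Λ with hK
  set y : ℝ := ((C.M : ℝ) ^ 3)⁻¹ with hy
  have hM32 : (32 : ℝ) ≤ C.M := by exact_mod_cast C.M_big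
  have hM0 : (0 : ℝ) < C.M := by linarith
  have hy0 : 0 ≤ y := by positivity
  have hdec : ∀ μ ∈ 𝓜.erase Msg.good,
      ∃ q : (Bool × Option ι) × (List (Fin (K + 1)) × List ι), (q.1.1 = false → q.1.2 = none) ∧
        q.2.2.length ≤ 2 ∧
        μ = Msg.bad q.1.1 q.1.2 ((q.2.1.map (fun u => Sum.inl u.1)) ++ q.2.2.map Sum.inr) := by
    intro μ hμ
    obtain ⟨h1, h2⟩ := Finset.mem_erase.1 hμ
    have h3 := hV μ h2
    cases μ with
    | good => exact absurd rfl h1
    | bad lb lf e =>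
      obtain ⟨h4, us, rs, h5, h6, h7⟩ := h3
      refine ⟨((lb, lf), (us.attach.map (fun u => ⟨u.1, Nat.lt_succ_of_le (h6 u.1 u.2)⟩), rs)),
        h4, h7, ?_⟩
      simp only
      rw [h5]
      congr 2
      rw [List.map_map]
      conv_lhs => rw [← List.attach_map_subtype_val us]
      rw [List.map_map]
      rfl
  choose q hq1 hq2 hq3 using hdec
  let ψ : {μ // μ ∈ 𝓜.erase Msg.good} → (Bool × Option ι) × (List (Fin (K + 1)) × List ι) :=
    fun μ => q μ.1 μ.2
  have hψ : Function.Injective ψ := by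
    intro μ μ' h
    apply Subtype.ext
    have h' : q μ.1 μ.2 = q μ'.1 μ'.2 := h
    rw [hq3 μ.1 μ.2, hq3 μ'.1 μ'.2, h']
  let f : (Bool × Option ι) × (List (Fin (K + 1)) × List ι) → ℝ := fun q =>
    y ^ q.1.2.toList.length * (y ^ q.2.1.length * y ^ q.2.2.length)
  have hf0 : ∀ q, 0 ≤ f q := fun q => by positivity
  have h1 : ∑ μ ∈ 𝓜.erase Msg.good, omg ((C.M : ℝ) ^ 3) μ =
      ∑ p ∈ (𝓜.erase Msg.good).attach.image ψ, f p := by
    rw [Finset.sum_image fun a _ b _ h => hψ h, ← Finset.sum_attach]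
    apply Finset.sum_congr rfl
    intro μ _
    have h2 : omg ((C.M : ℝ) ^ 3) μ.1 = f (q μ.1 μ.2) := by
      conv_lhs => rw [hq3 μ.1 μ.2]
      simp only [omg, f]
      rw [← pow_add, ← pow_add, List.length_append, List.length_map, List.length_map]
    exact h2
  set S := (𝓜.erase Msg.good).attach.image ψ with hS
  set P : Finset (Bool × Option ι) :=
    insert (false, none) ((Finset.univ : Finset (Option ι)).image (fun lf => (true, lf))) with hP
  set U : Finset (List (Fin (K + 1))) := S.image (fun p => p.2.1) with hU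
  set R : Finset (List ι) := S.image (fun p => p.2.2) with hR
  have hsub : S ⊆ P ×ˢ (U ×ˢ R) := by
    intro p hp
    rw [Finset.mem_product, Finset.mem_product]
    refine ⟨?_, Finset.mem_image_of_mem _ hp, Finset.mem_image_of_mem _ hp⟩
    obtain ⟨μ, -, rfl⟩ := Finset.mem_image.1 hp
    have h2 := hq1 μ.1 μ.2
    change (q μ.1 μ.2).1 ∈ P
    rw [hP, Finset.mem_insert, Finset.mem_image]
    rcases hb : (q μ.1 μ.2).1 with ⟨b, lf⟩
    rw [hb] at h2
    cases b with
    | false =>
      have h3 : lf = none := h2 rfl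
      exact Or.inl (by rw [h3])
    | true => exact Or.inr ⟨lf, Finset.mem_univ _, rfl⟩
  have hcard : (Fintype.card ι : ℝ) * y = C.M := by
    rw [C.card, hy]
    push_cast
    field_simp
  have hPs : ∑ a ∈ P, y ^ a.2.toList.length ≤ 3 * C.M := by
    rw [hP, Finset.sum_insert, Finset.sum_image, Fintype.sum_option]
    · simp only [Option.toList_none, List.length_nil, pow_zero, Option.toList_some,
        List.length_singleton, pow_one, Finset.sum_const, Finset.card_univ, nsmul_eq_mul]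
      rw [hcard]
      linarith
    · intro a _ b _ h
      exact (Prod.mk.inj h).2
    · intro h
      obtain ⟨lf, -, h2⟩ := Finset.mem_image.1 h
      exact absurd (Prod.mk.inj h2).1 (by simp)
  have hRs : ∑ r ∈ R, y ^ r.length ≤ 3 * (C.M : ℝ) ^ 2 := by
    have h2 := MWTAux.lists y hy0 R 2 (by
      intro l hl
      obtain ⟨p, hp, rfl⟩ := Finset.mem_image.1 hl
      obtain ⟨μ, -, rfl⟩ := Finset.mem_image.1 hp
      exact hq2 _ _)
    refine h2.trans ?_
    rw [hcard, Finset.sum_range_succ, Finset.sum_range_succ, Finset.sum_range_succ,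
      Finset.sum_range_zero]
    nlinarith
  have hUs : ∑ u ∈ U, y ^ u.length ≤ 4 / 3 := by
    have h2 := MWTAux.lists y hy0 U (U.sup List.length) (fun l hl => Finset.le_sup hl)
    refine h2.trans (MWTAux.geom4 _ _ (by positivity) ?_)
    rw [Fintype.card_fin, hy, ← div_eq_mul_inv, div_le_iff₀ (by positivity)]
    have h3 := C.lam
    have h4 : (4 : ℝ) * (6 * C.Λ + 1) ≤ (C.M : ℝ) ^ 3 := by exact_mod_cast h3
    rw [hK]
    push_cast
    linarith
  have hU0 : 0 ≤ ∑ u ∈ U, y ^ u.length := Finset.sum_nonneg fun _ _ => pow_nonneg hy0 _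
  have hR0 : 0 ≤ ∑ r ∈ R, y ^ r.length := Finset.sum_nonneg fun _ _ => pow_nonneg hy0 _
  have h5 : ∑ p ∈ S, f p ≤ 12 * (C.M : ℝ) ^ 3 := by
    calc ∑ p ∈ S, f p ≤ ∑ p ∈ P ×ˢ (U ×ˢ R), f p :=
          Finset.sum_le_sum_of_subset_of_nonneg hsub fun q _ _ => hf0 q
      _ = (∑ a ∈ P, y ^ a.2.toList.length) * ((∑ u ∈ U, y ^ u.length) * ∑ r ∈ R, y ^ r.length) := by
          rw [Finset.sum_product, Finset.sum_mul]
          apply Finset.sum_congr rfl
          intro a _
          rw [Finset.sum_product, Finset.sum_mul_sum, Finset.mul_sum]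
          apply Finset.sum_congr rfl
          intro u _
          rw [Finset.mul_sum]
      _ ≤ (3 * C.M) * (4 / 3 * (3 * (C.M : ℝ) ^ 2)) := by
          apply mul_le_mul hPs _ (mul_nonneg hU0 hR0) (by positivity)
          exact mul_le_mul hUs hRs hR0 (by norm_num)
      _ = 12 * (C.M : ℝ) ^ 3 := by ring
  have h6 : ∑ μ ∈ 𝓜, omg ((C.M : ℝ) ^ 3) μ ≤
      (C.M : ℝ) ^ 3 + ∑ μ ∈ 𝓜.erase Msg.good, omg ((C.M : ℝ) ^ 3) μ := by
    by_cases hg : Msg.good ∈ 𝓜
    · rw [← Finset.add_sum_erase 𝓜 _ hg]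
      simp only [omg]
      exact le_rfl
    · rw [Finset.erase_eq_of_notMem hg]
      have : (0 : ℝ) ≤ (C.M : ℝ) ^ 3 := by positivity
      linarith
  have h7 : (0 : ℝ) ≤ (C.M : ℝ) ^ 3 := by positivity
  rw [h1] at h6
  linarith

end GWT
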